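import Pool.Agent.Helper41.SQC.Goals

/-!
Project SQ, stage C, packet MOW: monomials are combinations of words with the same content.
-/

set_option autoImplicit false

namespace Pool.Agent.Helper37.SQC

open Pool.Agent.Helper19.SQ Pool.Agent.Helper41.SQC

/-- combinations of words of content `c` -/
noncomputable def WC {B : Type} [Ring B] [Algebra ℂ B] (N : ℕ) (E : ℕ → B) (c : ℕ → ℕ) :
    Submodule ℂ B :=
  Submodule.span ℂ {x | ∃ w : List ℕ, (∀ k ∈ w, k < N) ∧ (∀ m, m < N → w.count m = c m) ∧
    x = (w.map E).prod}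

section

variable {B : Type} [Ring B] [Algebra ℂ B] {N : ℕ} {E : ℕ → B}

theorem wc_congr {c c' : ℕ → ℕ} (h : ∀ m, m < N → c m = c' m) {x : B} (hx : x ∈ WC N E c) :
    x ∈ WC N E c' := by
  refine (Submodule.span_le.2 ?_) hx
  rintro _ ⟨w, hw1, hw2, rfl⟩
  exact Submodule.subset_span ⟨w, hw1, fun m hm => (hw2 m hm).trans (h m hm), rfl⟩

theorem wc_one : (1 : B) ∈ WC N E (fun _ => 0) :=
  Submodule.subset_span ⟨[], by simp, by simp, by simp⟩

theorem wc_gen {i : ℕ} (hi : i < N) : E i ∈ WC N E (fun m => if m = i then 1 else 0) :=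
  Submodule.subset_span ⟨[i], by simpa using hi, fun m _ => by
    rw [List.count_singleton]
    by_cases h : m = i
    · subst h
      simp
    · have h' : ¬ i = m := fun h2 => h h2.symm
      simp [h, h'], by simp⟩

theorem wc_mul {c c' : ℕ → ℕ} {x y : B} (hx : x ∈ WC N E c) (hy : y ∈ WC N E c') :
    x * y ∈ WC N E (fun m => c m + c' m) := by
  have h := Submodule.mul_mem_mul hx hy
  rw [WC, WC, Submodule.span_mul_span] at h
  refine (Submodule.span_le.2 ?_) h
  rintro _ ⟨a, ⟨w, hw1, hw2, rfl⟩, b, ⟨w', hw1', hw2', rfl⟩, rfl⟩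
  refine Submodule.subset_span ⟨w ++ w', ?_, ?_, by simp⟩
  · intro k hk
    rcases List.mem_append.1 hk with h | h
    · exact hw1 k h
    · exact hw1' k h
  · intro m hm
    rw [List.count_append, hw2 m hm, hw2' m hm]

theorem wc_pow {c : ℕ → ℕ} {x : B} (hx : x ∈ WC N E c) (k : ℕ) :
    x ^ k ∈ WC N E (fun m => k * c m) := by
  induction k with
  | zero =>
    rw [pow_zero]
    exact wc_congr (fun m _ => (Nat.zero_mul _).symm) wc_one
  | succ k ih =>
    rw [pow_succ]
    exact wc_congr (fun m _ => (Nat.succ_mul _ _).symm) (wc_mul ih hx)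

theorem wc_list (f : ℕ → B) (g : ℕ → ℕ → ℕ) (l : List ℕ) (h : ∀ i ∈ l, f i ∈ WC N E (g i)) :
    (l.map f).prod ∈ WC N E (fun m => (l.map (fun i => g i m)).sum) := by
  induction l with
  | nil => exact wc_one
  | cons a l ih =>
    rw [List.map_cons, List.prod_cons]
    refine wc_congr (fun m _ => ?_) (wc_mul (h a (by simp))
      (ih (fun i hi => h i (List.mem_cons_of_mem _ hi))))
    rw [List.map_cons, List.sum_cons]

theorem list_sum (g : ℕ → ℕ) (n : ℕ) : ((List.range n).map g).sum = ∑ i ∈ Finset.range n, g i := by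
  induction n with
  | zero => simp
  | succ n ih => simp [List.range_succ, Finset.sum_range_succ, ih]

theorem wc_rvA (q : ℂ) (d : ℕ) : ∀ i, i + d < N →
    rvA q E d i ∈ WC N E (fun m => if i ≤ m ∧ m ≤ i + d then 1 else 0) := by
  induction d with
  | zero =>
    intro i hi
    refine wc_congr (fun m _ => ?_) (wc_gen hi)
    by_cases h : m = i
    · subst h
      simp
    · rw [if_neg h, if_neg (by omega)]
  | succ d ih =>
    intro i hi
    have h1 := ih (i + 1) (by omega)
    have h2 : E i ∈ WC N E (fun m => if m = i then 1 else 0) := wc_gen (by omega)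
    show E i * rvA q E d (i + 1) - q⁻¹ • (rvA q E d (i + 1) * E i) ∈ _
    refine Submodule.sub_mem _ ?_ (Submodule.smul_mem _ _ ?_)
    · refine wc_congr (fun m _ => ?_) (wc_mul h2 h1)
      by_cases h : m = i
      · rw [if_pos h, if_neg (by omega), if_pos (by omega)]
      · rw [if_neg h]
        by_cases h' : i ≤ m ∧ m ≤ i + (d + 1)
        · rw [if_pos h', if_pos (by omega)]
        · rw [if_neg h', if_neg (by omega)]
    · refine wc_congr (fun m _ => ?_) (wc_mul h1 h2)
      by_cases h : m = i
      · rw [if_pos h, if_neg (by omega), if_pos (by omega)]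
      · rw [if_neg h]
        by_cases h' : i ≤ m ∧ m ≤ i + (d + 1)
        · rw [if_pos h', if_pos (by omega)]
        · rw [if_neg h', if_neg (by omega)]

end

theorem cn_eq (N : ℕ) (b : ℕ → ℕ → ℕ) (m : ℕ) (hm : m < N) :
    ∑ i ∈ Finset.range N, ∑ d ∈ Finset.range (N - i),
      b i (i + 1 + d) * (if i ≤ m ∧ m ≤ i + d then 1 else 0) = cn N b m := by
  unfold cn
  rw [← Finset.sum_subset (s₁ := Finset.range (m + 1)) (s₂ := Finset.range N)]
  · refine Finset.sum_congr rfl (fun i hi => ?_)
    rw [Finset.mem_range] at hi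
    have e : Finset.Ioc m N = (Finset.Ioc i N).filter (fun j => m < j) := by
      ext j
      simp only [Finset.mem_Ioc, Finset.mem_filter]
      omega
    rw [e, Finset.sum_filter]
    have e2 : Finset.Ioc i N = (Finset.range (N - i)).image (fun d => i + 1 + d) := by
      ext j
      simp only [Finset.mem_Ioc, Finset.mem_image, Finset.mem_range]
      constructor
      · intro h
        exact ⟨j - (i + 1), by omega, by omega⟩
      · rintro ⟨d, hd, rfl⟩
        omega
    rw [e2, Finset.sum_image (by intro a _ b _ h; simpa using h)]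
    refine Finset.sum_congr rfl (fun d _ => ?_)
    by_cases h : m < i + 1 + d
    · rw [if_pos h, if_pos (by omega), Nat.mul_one]
    · rw [if_neg h, if_neg (by omega), Nat.mul_zero]
  · intro i hi
    rw [Finset.mem_range] at hi ⊢
    omega
  · intro i _ hi
    rw [Finset.mem_range] at hi
    refine Finset.sum_eq_zero (fun d _ => ?_)
    rw [if_neg (by omega), Nat.mul_zero]

/-- Packet MOW. -/
theorem c_mow : S_MOW := by
  intro B _ _ N q E b _
  show mon N q E b ∈ WC N E (fun m => cn N b m)
  refine wc_congr (fun m hm => ?_) (wc_list (N := N) (E := E) (fun i => rowM N q E b i)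
    (fun i m => ∑ d ∈ Finset.range (N - i),
      b i (i + 1 + d) * (if i ≤ m ∧ m ≤ i + d then 1 else 0)) (List.range N) ?_)
  · rw [list_sum]
    exact cn_eq N b m hm
  · intro i hi
    rw [List.mem_range] at hi
    unfold rowM
    refine wc_congr (fun m _ => ?_) (wc_list (N := N) (E := E) _
      (fun d m => b i (i + 1 + d) * (if i ≤ m ∧ m ≤ i + d then 1 else 0)) _ ?_)
    · rw [list_sum]
    · intro d hd
      rw [List.mem_range] at hd
      refine wc_pow ?_ _
      unfold rv
      rw [show i + 1 + d - i - 1 = d by omega]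
      exact wc_rvA q d i (by omega)

end Pool.Agent.Helper37.SQC
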